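import Pool.Agent.helper12.DD.Spec

/-!
# dd:CPL, completeness of the irreducible characters
-/

set_option autoImplicit false

open Pool.Agent.helper49.Blk Representation
open scoped MonoidAlgebra

namespace Pool.Agent.DD

/-- Schur's lemma. -/
theorem CPL_schur {G : Type} [Group G] {W : Type} [AddCommGroup W] [Module ℂ W]
    [FiniteDimensional ℂ W] (ρ : Representation ℂ G W) (hirr : ρ.IsIrreducible)
    (T : W →ₗ[ℂ] W) (h : ∀ g, T * ρ g = ρ g * T) :
    ∃ μ : ℂ, T = μ • (1 : W →ₗ[ℂ] W) := by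
  have := hirr
  let f : IntertwiningMap ρ ρ := ⟨T, fun g => h g⟩
  obtain ⟨μ, hμ⟩ := (IsIrreducible.algebraMap_intertwiningMap_bijective_of_isAlgClosed
    (ρ := ρ)).2 f
  refine ⟨μ, ?_⟩
  ext w
  have := congrArg (fun φ : IntertwiningMap ρ ρ => φ w) hμ
  exact this.symm.trans (by simp)

theorem CPL_nontrivial {G : Type} [Group G] {W : Type} [AddCommGroup W] [Module ℂ W]
    (ρ : Representation ℂ G W) (hirr : ρ.IsIrreducible) : Nontrivial W := by
  have := hirr
  by_contra hW
  rw [not_nontrivial_iff_subsingleton] at hW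
  have : (⊥ : Subrepresentation ρ) = ⊤ := by
    apply Subrepresentation.toSubmodule_injective
    exact Subsingleton.elim _ _
  exact bot_ne_top this

theorem CPL_key {G : Type} [Group G] [Fintype G] (f : G → ℂ)
    (hf : ∀ g h, f (h * g * h⁻¹) = f g) {V : Type} [AddCommGroup V] [Module ℂ V]
    [FiniteDimensional ℂ V] (ρ : Representation ℂ G V) (hρ : ρ.IsIrreducible)
    (h0 : ∑ g, f g * ρ.character g⁻¹ = 0) : ∑ g, f g • ρ g⁻¹ = 0 := by
  classical
  have hcomm : ∀ h : G, (∑ g, f g • ρ g⁻¹) * ρ h = ρ h * (∑ g, f g • ρ g⁻¹) := by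
    intro h
    have e1 : (∑ g, f g • ρ g⁻¹) * ρ h = ∑ g, f g • ρ (g⁻¹ * h) := by
      rw [Finset.sum_mul]
      refine Finset.sum_congr rfl fun g _ => ?_
      rw [smul_mul_assoc, map_mul]
    have e2 : ρ h * (∑ g, f g • ρ g⁻¹) = ∑ g, f g • ρ (h * g⁻¹) := by
      rw [Finset.mul_sum]
      refine Finset.sum_congr rfl fun g _ => ?_
      rw [mul_smul_comm, map_mul]
    rw [e1, e2]
    refine Fintype.sum_equiv (MulAut.conj h⁻¹).toEquiv _ _ fun g => ?_
    have e3 : (MulAut.conj h⁻¹).toEquiv g = h⁻¹ * g * h := by simp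
    rw [e3]
    have e4 : f (h⁻¹ * g * h) = f g := by
      have := hf g h⁻¹
      rwa [inv_inv] at this
    rw [e4]
    congr 2
    group
  obtain ⟨μ, hμ⟩ := CPL_schur ρ hρ _ hcomm
  have htr : LinearMap.trace ℂ V (∑ g, f g • ρ g⁻¹) = 0 := by
    rw [map_sum, ← h0]
    refine Finset.sum_congr rfl fun g _ => ?_
    rw [map_smul, smul_eq_mul]
    rfl
  rw [hμ, map_smul, LinearMap.trace_one, smul_eq_mul, mul_eq_zero] at htr
  have := CPL_nontrivial ρ hρ
  rcases htr with h | h
  · rw [hμ, h, zero_smul]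
  · exfalso
    have := Module.finrank_pos (R := ℂ) (M := V)
    rw [Nat.cast_eq_zero] at h
    omega

/-- The module of `ofModule' M` is `M`. -/
noncomputable def CPL_equiv {G : Type} [Group G] (M : Type) [AddCommGroup M] [Module ℂ M]
    [Module ℂ[G] M] [IsScalarTower ℂ ℂ[G] M] :
    M ≃ₗ[ℂ[G]] (ofModule' (k := ℂ) (G := G) M).asModule :=
  { (ofModule' (k := ℂ) (G := G) M).asModuleEquiv.symm.toAddEquiv with
    map_smul' := fun r x => by
      change (ofModule' (k := ℂ) (G := G) M).asModuleEquiv.symm (r • x) =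
        r • (ofModule' (k := ℂ) (G := G) M).asModuleEquiv.symm x
      rw [LinearEquiv.symm_apply_eq, asModuleEquiv_map_smul, LinearEquiv.apply_symm_apply]
      rw [asAlgebraHom_def, ofModule', Equiv.apply_symm_apply]
      rfl }

theorem CPL : CPL_stmt := by
  intro G _ _ f hf h0
  classical
  set z : ℂ[G] := ∑ g, f g • MonoidAlgebra.single g⁻¹ (1 : ℂ) with hz
  -- `z` lies in every maximal left ideal
  have hmax : ∀ I : Ideal ℂ[G], I.IsMaximal → z ∈ I := by
    intro I hI
    have hs : IsSimpleModule ℂ[G] (ℂ[G] ⧸ I) := isSimpleModule_iff_isCoatom.2 hI.out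
    let ρ := ofModule' (k := ℂ) (G := G) (ℂ[G] ⧸ I)
    have hsρ : IsSimpleModule ℂ[G] ρ.asModule := IsSimpleModule.congr (CPL_equiv _).symm
    have hρ : ρ.IsIrreducible := (irreducible_iff_isSimpleModule_asModule ρ).2 hsρ
    have hfin : FiniteDimensional ℂ (ℂ[G] ⧸ I) :=
      Module.Finite.of_surjective ((Submodule.mkQ I).restrictScalars ℂ)
        (Submodule.mkQ_surjective I)
    have key := CPL_key f hf ρ hρ (h0 _ ⟨_, _, _, hfin, ρ, hρ, rfl⟩)
    have h1 : (∑ g, f g • ρ g⁻¹) (Submodule.mkQ I 1) = Submodule.mkQ I z := by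
      rw [LinearMap.sum_apply, hz, map_sum]
      refine Finset.sum_congr rfl fun g _ => ?_
      have h2 : (ρ g⁻¹) (Submodule.mkQ I 1) =
          (MonoidAlgebra.single g⁻¹ (1 : ℂ) : ℂ[G]) • Submodule.mkQ I 1 := rfl
      rw [LinearMap.smul_apply, h2, ← map_smul, smul_eq_mul, mul_one]
      rfl
    rw [key, LinearMap.zero_apply] at h1
    exact (Submodule.Quotient.mk_eq_zero I).1 h1.symm
  have hne : NeZero (Nat.card G : ℂ) := ⟨by
    rw [Nat.cast_ne_zero]
    exact Nat.card_pos.ne'⟩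
  have hz0 : z = 0 := by
    have hj : z ∈ Ring.jacobson ℂ[G] := by
      rw [Ring.jacobson_eq_sInf_isMaximal]
      exact Ideal.mem_sInf.2 fun {I} hI => hmax I hI
    rw [IsSemisimpleRing.jacobson_eq_bot] at hj
    exact hj
  ext g
  have h3 : z.coeff g⁻¹ = f g := by
    rw [hz, MonoidAlgebra.coeff_sum, Finsupp.finsetSum_apply, Finset.sum_eq_single g]
    · simp
    · intro b _ hb
      simp [hb]
    · simp
  rw [← h3, hz0]
  rfl

end Pool.Agent.DD
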