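import Pool.Agent.helper12.DD.Spec

/-!
# dd:KKP, the number of characters in a product
-/

set_option autoImplicit false

open Pool.Agent.helper49.Blk

namespace Pool.Agent.DD

theorem KKP_defc_unique {p : ℕ} {H : Type} [Group H] {ψ : H → ℂ} {i j : ℕ}
    (hi : Defc p ψ i) (hj : Defc p ψ j) : i = j := by
  obtain ⟨m, hm, h1⟩ := hi
  obtain ⟨m', hm', h2⟩ := hj
  have : m = m' := by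
    have h : (m : ℂ) = (m' : ℂ) := by rw [← hm, ← hm']
    exact_mod_cast h
  subst this
  omega

theorem KKP (hIRP : IRP_stmt) (hIND : IND_stmt) (hSTB : STB_stmt) (hDFP : DFP_stmt)
    (hIRF : IRF_stmt) : KKP_stmt := by
  intro p hp M A B EA EB _ _ _ _ _ _ ιA ιB hιA hιB χ₁ hχ₁ χ₂ hχ₂ S hS N₁ N₂ d U₁ U₂
  classical
  have hne1 : ∀ ψ₁ ∈ Irr N₁, ψ₁ 1 ≠ 0 := by
    intro ψ hψ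
    obtain ⟨⟨n, hn, h⟩, -⟩ := (hIRF N₁).2 ψ hψ
    rw [h]
    exact_mod_cast hn.ne'
  have hne2 : ∀ ψ₂ ∈ Irr N₂, ψ₂ 1 ≠ 0 := by
    intro ψ hψ
    obtain ⟨⟨n, hn, h⟩, -⟩ := (hIRF N₂).2 ψ hψ
    rw [h]
    exact_mod_cast hn.ne'
  obtain ⟨hIRP1, hIRP2⟩ := hIRP A B N₁ N₂
  let F : (N₁ → ℂ) × (N₂ → ℂ) → (↥(N₁.prod N₂) → ℂ) := fun ψ => ots N₁ N₂ ψ.1 ψ.2
  let K : ℕ × ℕ → Set ((N₁ → ℂ) × (N₂ → ℂ)) := fun ij =>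
    (kset p M ιA χ₁ N₁ (p1 '' S) ij.1 U₁) ×ˢ (kset p M ιB χ₂ N₂ (p2 '' S) ij.2 U₂)
  have hset : kset p M (ιA.prodMap ιB) (ot χ₁ χ₂) (N₁.prod N₂) S d (U₁.prod U₂) =
      F '' (⋃ ij ∈ (↑(Finset.HasAntidiagonal.antidiagonal d) : Set (ℕ × ℕ)), K ij) := by
    ext ψ
    simp only [Set.mem_image, Set.mem_iUnion, Finset.mem_coe,
      exists_prop, K, kset, Set.mem_ofPred_eq, Set.mem_prod]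
    constructor
    · rintro ⟨h1, h2, h3, h4⟩
      obtain ⟨ψ₁, hψ₁, ψ₂, hψ₂, rfl⟩ := (hIRP1 ψ).1 h1
      obtain ⟨i, j, hij, hi, hj⟩ := ((hDFP p hp A B).1 N₁ N₂ ψ₁ hψ₁ ψ₂ hψ₂ d).1 h2
      obtain ⟨g1, g2⟩ := ((hIND M A B χ₁ hχ₁ χ₂ hχ₂).1 N₁ N₂ ψ₁ hψ₁ ψ₂ hψ₂).1 h3
      obtain ⟨s1, s2⟩ := (hSTB A B EA EB ιA ιB hιA hιB S hS N₁ N₂ ψ₁ ψ₂ (hne1 ψ₁ hψ₁)
        (hne2 ψ₂ hψ₂) U₁ U₂).1 h4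
      exact ⟨(ψ₁, ψ₂), ⟨(i, j), Finset.HasAntidiagonal.mem_antidiagonal.2 hij, ⟨hψ₁, hi, g1, s1⟩, ⟨hψ₂, hj, g2, s2⟩⟩, rfl⟩
    · rintro ⟨⟨ψ₁, ψ₂⟩, ⟨⟨i, j⟩, hij, ⟨hψ₁, hi, g1, s1⟩, ⟨hψ₂, hj, g2, s2⟩⟩, rfl⟩
      refine ⟨(hIRP1 _).2 ⟨ψ₁, hψ₁, ψ₂, hψ₂, rfl⟩, ?_, ?_, ?_⟩
      · exact ((hDFP p hp A B).1 N₁ N₂ ψ₁ hψ₁ ψ₂ hψ₂ d).2 ⟨i, j,
          Finset.HasAntidiagonal.mem_antidiagonal.1 hij, hi, hj⟩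
      · exact ((hIND M A B χ₁ hχ₁ χ₂ hχ₂).1 N₁ N₂ ψ₁ hψ₁ ψ₂ hψ₂).2 ⟨g1, g2⟩
      · exact (hSTB A B EA EB ιA ιB hιA hιB S hS N₁ N₂ ψ₁ ψ₂ (hne1 ψ₁ hψ₁)
          (hne2 ψ₂ hψ₂) U₁ U₂).2 ⟨s1, s2⟩
  have hinj : Set.InjOn F (⋃ ij ∈ (↑(Finset.HasAntidiagonal.antidiagonal d) : Set (ℕ × ℕ)),
      K ij) := by
    rintro ⟨ψ₁, ψ₂⟩ h ⟨φ₁, φ₂⟩ h' hF
    simp only [Set.mem_iUnion, K, kset, Set.mem_ofPred_eq, Set.mem_prod] at h h'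
    obtain ⟨-, -, ⟨a1, -⟩, ⟨a2, -⟩⟩ := h
    obtain ⟨-, -, ⟨b1, -⟩, ⟨b2, -⟩⟩ := h'
    obtain ⟨e1, e2⟩ := hIRP2 ψ₁ a1 φ₁ b1 ψ₂ a2 φ₂ b2 hF
    rw [e1, e2]
  have hfin1 : ∀ i, (kset p M ιA χ₁ N₁ (p1 '' S) i U₁).Finite := fun i =>
    (hIRF N₁).1.subset fun ψ h => h.1
  have hfin2 : ∀ j, (kset p M ιB χ₂ N₂ (p2 '' S) j U₂).Finite := fun j =>
    (hIRF N₂).1.subset fun ψ h => h.1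
  rw [hset, hinj.ncard_image,
    Set.Finite.ncard_biUnion (Finset.finite_toSet _) (fun ij _ => (hfin1 _).prod (hfin2 _))]
  · rw [finsum_mem_coe_finset]
    refine Finset.sum_congr rfl fun ij _ => ?_
    exact Set.ncard_prod
  · rintro ⟨i, j⟩ _ ⟨i', j'⟩ _ hne
    rw [Function.onFun, Set.disjoint_left]
    rintro ⟨ψ₁, ψ₂⟩ ⟨h1, h2⟩ ⟨h1', h2'⟩
    apply hne
    have e1 : i = i' := KKP_defc_unique h1.2.1 h1'.2.1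
    have e2 : j = j' := KKP_defc_unique h2.2.1 h2'.2.1
    rw [e1, e2]

end Pool.Agent.DD
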